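import Pool.Agent.X14.PD2

/-!
# `Σ_{k≤(p^a-1)/2} (42k+5) C(2k,k)^3 / 4096^k` modulo `p^(a+4)`
-/

set_option autoImplicit false

namespace Pool.Agent.Results.MP_9fec82_nt.HalfRangeAllPowers

open Finset

/-- The term `c_k = C(2k,k)^3`. -/
def c (k : ℕ) : ℚ := ((2 * k).choose k : ℚ) ^ 3

/-- The harmonic number `H_m = Σ_{j=1}^{m} 1/j`. -/
def H (m : ℕ) : ℚ := ∑ j ∈ range m, 1 / ((j : ℚ) + 1)

/-- `x ≡ y (mod p^m)` in the ring of rationals whose denominator is prime to `p`: the number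
`(x - y) / p^m` has a denominator prime to `p`. -/
def Cong (p m : ℕ) (x y : ℚ) : Prop := Nat.Coprime ((x - y) / (p : ℚ) ^ m).den p

/-- For every prime `p > 3` and every `a ≥ 1`:
`p^(-a) Σ_{0≤k≤(p^a-1)/2} (42k+5) c_k / 4096^k ≡ (-1/p^a) (5 - (3p/4) H_{p-1}) (mod p^4)`. -/
theorem result (p a : ℕ) (hp : p.Prime) (hp3 : 3 < p) (ha : 1 ≤ a) :
    Cong p 4 (((p : ℚ) ^ a)⁻¹ * ∑ k ∈ range ((p ^ a - 1) / 2 + 1), (42 * (k : ℚ) + 5) * (c k / 4096 ^ k))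
      ((jacobiSym (-1) (p ^ a) : ℚ) * (5 - 3 * (p : ℚ) / 4 * H (p - 1))) := by
  haveI : Fact p.Prime := ⟨hp⟩
  obtain ⟨b, rfl⟩ : ∃ b, a = b + 1 := ⟨a - 1, by omega⟩
  have hp2 : p ≠ 2 := by omega
  obtain ⟨n, hn⟩ : ∃ n, 2 * n + 1 = p ^ (b + 1) := by
    obtain ⟨k, hk⟩ := (hp.odd_of_ne_two hp2).pow (n := b + 1)
    exact ⟨k, hk.symm⟩
  have h1 := Pool.Agent.X14.PD.main (p := p) hp2 (by omega) b hn
  have e1 : (p ^ (b + 1) - 1) / 2 = n := by omega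
  have e2 : jacobiSym (-1) (p ^ (b + 1)) = (-1) ^ n := by
    rw [jacobiSym.at_neg_one (by rw [← hn]; exact ⟨n, rfl⟩), ZMod.χ₄_eq_neg_one_pow (by omega)]
    congr 1
    omega
  have e3 : ∑ k ∈ range (n + 1), (42 * (k : ℚ) + 5) * (c k / 4096 ^ k) =
      ∑ k ∈ range (n + 1), (42 * (k : ℚ) + 5) * (k.centralBinom : ℚ) ^ 3 / 4096 ^ k := by
    apply sum_congr rfl
    intro k _
    unfold c
    rw [Nat.centralBinom_eq_two_mul_choose, mul_div_assoc]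
  obtain ⟨u, hu1, hu2⟩ := Pool.Agent.H434R2.PO.exists_rep h1
  have hp0 : (p : ℚ) ^ 4 ≠ 0 := pow_ne_zero _ (by exact_mod_cast hp.ne_zero)
  unfold Cong H
  rw [e1, e2, e3]
  push_cast
  rw [← one_div, hu2, mul_div_cancel_left₀ _ hp0]
  exact hu1

end Pool.Agent.Results.MP_9fec82_nt.HalfRangeAllPowers
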